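import Pool.Agent.H87.SA2.FINZ

/-!
# Explicit effective Siegel theorem over the fibre fields of any one-parameter family

Let `f ∈ ℤ[t][X]` be monic in `X` and squarefree, of degree `d` in `X`, of degree at most `m` in `t`,
with coefficients at most `B` in absolute value, `B ≥ 2` (the covering `f = 0` of the `t`-line may be
ramified over `t = 0`, reducible, and have any Galois group). Let `n ≥ 4` and let `ν` be at least
three times the degree of every irreducible factor `g` of `f` over `ℚ⟦t⟧` that has a root in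
`ℝ⟦t^(1/e)⟧` for some `e ≥ 1` (a real branch of the covering over `t = 0`). Let `a ≥ 1` and
`N ≥ (B a)^E`, `E = 10^13 n^4 d^11 (m+1)^4 d!^7 (14 d^2)^((2d+1) m d!)`. Let `F` in `ℤ[x,y]` have total
degree at most `n` and irreducible leading form `F_n`, and let the root field `ℚ[z]/(F_n(1,z))`
contain a root `γ` of `f(a/N, X)` of degree at least `ν` over `ℚ`. The terms of degree less than `n` are
arbitrary. Then all integer points of `F = 0` satisfy
`max(|x|,|y|) ≤ (N H(F))^(10^10 n^6 d^4 (m+1)^2 d!^6)`.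
-/

namespace Pool.Agent.H87.Old.OneParameter

open Polynomial

/-- An explicit bound for all integer points, polynomial in the height of the curve. -/
theorem result (n d m : ℕ) (hn : 4 ≤ n) (f : ℤ[X][X]) (hf : f.Monic) (hsq : Squarefree f)
    (hd : f.natDegree = d) (hm : ∀ j, (f.coeff j).natDegree ≤ m) (B a N : ℕ) (hB : 2 ≤ B)
    (hfB : ∀ j i, |(f.coeff j).coeff i| ≤ (B : ℤ)) (ν : ℕ)
    (hν : ∀ g : (PowerSeries ℚ)[X], g.Monic → Irreducible g →
      g ∣ f.map (eval₂RingHom (Int.castRingHom (PowerSeries ℚ)) PowerSeries.X) →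
      (∃ (e : ℕ) (he : e ≠ 0) (ξ : PowerSeries ℝ),
        g.eval₂ (((PowerSeries.expand e he : PowerSeries ℝ →ₐ[ℝ] PowerSeries ℝ) :
          PowerSeries ℝ →+* PowerSeries ℝ).comp (PowerSeries.map (algebraMap ℚ ℝ))) ξ = 0) →
      3 * g.natDegree ≤ ν)
    (ha : 1 ≤ a)
    (hN : (B * a) ^ (10 ^ 13 * n ^ 4 * d ^ 11 * (m + 1) ^ 4 * d.factorial ^ 7 *
      (14 * d ^ 2) ^ ((2 * d + 1) * m * d.factorial)) ≤ N)
    (F : MvPolynomial (Fin 2) ℤ) (hdeg : F.totalDegree ≤ n)
    (hirr : Irreducible (MvPolynomial.map (Int.castRingHom ℚ)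
        (MvPolynomial.homogeneousComponent n F)))
    (hroot : ∃ γ : AdjoinRoot (MvPolynomial.aeval ![(1 : ℚ[X]), X]
          (MvPolynomial.homogeneousComponent n F)),
        aeval γ (f.map (eval₂RingHom (Int.castRingHom ℚ) ((a : ℚ) / N))) = 0 ∧
        ν ≤ (minpoly ℚ γ).natDegree)
    (x y : ℤ) (hxy : MvPolynomial.eval ![x, y] F = 0) :
    max |x| |y| ≤ ((N : ℤ) * ((F.support.sup fun e => (F.coeff e).natAbs : ℕ) : ℤ)) ^
      (10 ^ 10 * n ^ 6 * d ^ 4 * (m + 1) ^ 2 * d.factorial ^ 6) := by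
  refine Pool.Agent.H87.SA2.one_explicit hn hf hsq hd hm hB hfB (nu := ν) ?_ ha hN F hdeg hirr
    hroot x y hxy
  rintro g h1 h2 h3 ⟨e, he, ξ, hξ⟩
  refine hν g h1 h2 h3 ⟨e, he, ξ, ?_⟩
  rw [eval_map] at hξ
  exact hξ

end Pool.Agent.H87.Old.OneParameter
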