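import Pool.Agent.H87.SA.FinS

/-!
# Effective Siegel theorem for curves whose root field is anchored by a split polynomial

Let `n ≥ 4`, `d ≥ 3`, let `c_1, ..., c_d` be distinct integers, `h ∈ ℤ[X]` of degree `< d`, all
`|c_i|` and all coefficients of `h` bounded by `B ≥ 2`, and `N ≥ B^(10^7 n^4 d^4 d!)`. Let `F` in
`ℤ[x,y]` have total degree at most `n`, irreducible leading form `F_n`, and let the root field
`ℚ[z]/(F_n(1,z))` contain a root `γ` of `N (X - c_1) ⋯ (X - c_d) + h` with `[ℚ(γ) : ℚ] ≥ 3`. The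
terms of `F` of degree less than `n` are arbitrary. Then all integer points of `F = 0` satisfy
`max(|x|,|y|) ≤ N^(10^8 n^6 d^4 d!^2) H(F)^(10^8 n^6 d^2 d!)`.
For example `F = N (y - c_1 x) ⋯ (y - c_n x) + x^n + G(x,y)` with any `G` of degree less than `n`
(if the leading form is irreducible). The Galois group of the root field may be the full
symmetric group.
-/

namespace Pool.Agent.Results.MP_821da1_nt.SplitAnchor

open MvPolynomial

/-- Explicit bound for all integer points. -/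
theorem result (n d : ℕ) (hn : 4 ≤ n) (hd : 3 ≤ d) (c : Fin d → ℤ) (hc : Function.Injective c)
    (h : Polynomial ℤ) (hh : h.degree < d) (B N : ℕ) (hB : 2 ≤ B) (hcB : ∀ i, |c i| ≤ B)
    (hhB : ∀ k, |h.coeff k| ≤ B) (hN : B ^ (10 ^ 7 * n ^ 4 * d ^ 4 * d.factorial) ≤ N)
    (F : MvPolynomial (Fin 2) ℤ) (hdeg : F.totalDegree ≤ n)
    (hirr : Irreducible (map (Int.castRingHom ℚ) (homogeneousComponent n F)))
    (hroot : ∃ γ : AdjoinRoot (aeval ![(1 : Polynomial ℚ), Polynomial.X]
        (homogeneousComponent n F)),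
      Polynomial.aeval γ (Polynomial.C (N : ℤ) *
        ∏ i, (Polynomial.X - Polynomial.C (c i)) + h) = 0 ∧ 3 ≤ (minpoly ℚ γ).natDegree)
    (x y : ℤ) (hxy : eval ![x, y] F = 0) :
    max |x| |y| ≤ (N : ℤ) ^ (10 ^ 8 * n ^ 6 * d ^ 4 * d.factorial ^ 2) *
      ((F.support.sup fun m => (coeff m F).natAbs : ℕ) : ℤ) ^
        (10 ^ 8 * n ^ 6 * d ^ 2 * d.factorial) :=
  Pool.Agent.H87.SA.split_poly hn hd hc hB hcB hh hhB hN F hdeg hirr hroot x y hxy

end Pool.Agent.Results.MP_821da1_nt.SplitAnchor
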